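import Mathlib
import Pool.Agent.Q11.GS.Skew

set_option autoImplicit false

namespace Pool.Agent.Results.MP_eab7e5_al.GradedSimpleNotSimple

open Pool.Agent.Q11.GS

/-- `𝒜` makes `R` a strongly `G`-graded ring: `R` is the internal direct sum of the additive
subgroups `𝒜 g`, and `𝒜 g * 𝒜 h = 𝒜 (g * h)` (the additive subgroup generated by all products)
for all `g, h`. -/
structure IsStronglyGraded {G R : Type} [Group G] [Ring R] (𝒜 : G → AddSubgroup R) : Prop where
  internal : ∀ [DecidableEq G], DirectSum.IsInternal 𝒜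
  strong : ∀ g h : G,
    AddSubgroup.closure {z : R | ∃ a ∈ 𝒜 g, ∃ b ∈ 𝒜 h, z = a * b} = 𝒜 (g * h)

/-- A two-sided ideal is graded if each of its elements is a (finite) sum of homogeneous elements
lying in the ideal. -/
def IsGradedIdeal {G R : Type} [Ring R] (𝒜 : G → AddSubgroup R) (I : TwoSidedIdeal R) : Prop :=
  ∀ r ∈ I, ∃ f : G →₀ R, (∀ g, f g ∈ 𝒜 g ∧ f g ∈ I) ∧ f.sum (fun _ x => x) = r

/-- There are a group `G` and a nonzero strongly `G`-graded ring `R` which is graded simple and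
satisfies `C_R(R_e) = Z(R_e)`, but has a two-sided ideal other than `0` and `R`. -/
theorem result : ∃ (G : Type) (_ : Group G) (R : Type) (_ : Ring R) (𝒜 : G → AddSubgroup R),
    Nontrivial R ∧ IsStronglyGraded 𝒜 ∧
    (∀ I : TwoSidedIdeal R, IsGradedIdeal 𝒜 I → I = ⊥ ∨ I = ⊤) ∧
    (∀ r : R, (∀ a ∈ 𝒜 1, r * a = a * r) ↔ (r ∈ 𝒜 1 ∧ ∀ a ∈ 𝒜 1, r * a = a * r)) ∧
    ∃ I : TwoSidedIdeal R, I ≠ ⊥ ∧ I ≠ ⊤ := by
  refine ⟨G, inferInstance, R, inferInstance, comp, ⟨z, 0, z_ne⟩, ⟨isInternal, strong⟩, ?_, ?_,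
    exists_ideal⟩
  · intro I hI
    exact graded_simple S_Gsimple I hI
  · intro r
    refine ⟨fun h => ⟨?_, h⟩, fun h => h.2⟩
    exact centralizer no_partially_inner r fun a ha => (h a ha).symm

end Pool.Agent.Results.MP_eab7e5_al.GradedSimpleNotSimple
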